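import Pool.Agent.Q49.SG.Fin

/-!
# MP_9ca6a9_ag: the set of stubborn degrees can have a gap
-/

set_option autoImplicit false

namespace Pool.Agent.Results.MP_9ca6a9_ag.StubbornGap

open Q49.SB

/-- There is a totally real (irreducible) variety `X ⊂ ℙⁿ` (a rational quintic curve in `ℙ³`) with
a stubborn form of degree 2 and without stubborn forms of degree 4. -/
theorem result : ∃ (n : ℕ) (I : Ideal (Poly n)), TotallyReal I ∧ I.IsPrime ∧
    (∃ F, Stubborn I 1 F) ∧ ¬ ∃ F, Stubborn I 2 F :=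
  ⟨3, Q49.SG.I5, Q49.SG.totallyReal_I5, Q49.SG.isPrime_I5, ⟨_, Q49.SG.stubborn2⟩,
    fun ⟨F, hF⟩ => Q49.SG.not_stubborn4 F hF⟩

end Pool.Agent.Results.MP_9ca6a9_ag.StubbornGap
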